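import Pool.Agent.W901.PX.LvC

/-!
# Advice for one level gives advice for the whole hierarchy
-/

set_option autoImplicit false

namespace Pool.Agent.Y596.PL

open Pool.Agent.NPC Pool.Agent.H251R5.PQ Pool.Agent.W901.AT Pool.Agent.H579R2.Spt
open Pool.Agent.W901.NU Pool.Agent.W901.PX
open Pool.Agent.W903.GP (InPH SigmaP sigma_props sigma_ex sigma_succ sigma_mono u1 u1_pair poly_u1
  pid inP_iff)

theorem length_pairBits' (x w : List Bool) :
    (pairBits x w).length = 2 * x.length + 1 + w.length := by
  unfold pairBits
  induction x with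
  | nil => simp; omega
  | cons b x ih =>
    simp only [List.flatMap_cons, List.length_append, List.length_cons] at ih ⊢
    simp only [List.length_nil] at ih ⊢
    omega

/-- two pieces of advice in one -/
def join (a b : List Item) : List Item := [([], [bits (a, b)])]

/-- the two pieces of advice -/
def split (c : List Item) : List Item × List Item :=
  ((c.head?.bind (fun q => q.2.head?)).bind
    (fun w => unbits (List Item × List Item) w)).getD ([], [])

theorem split_join (a b : List Item) : split (join a b) = (a, b) := by
  simp [split, join, unbits_bits]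

theorem poly_split : Poly split := by
  have h1 : Poly (fun c : List Item => c.head?) := NPC.Poly.head? NPC.Poly.id
  have h2 : Poly (fun c : List Item => c.head?.bind (fun q => q.2.head?)) :=
    NPC.Poly.optBind (o := fun c : List Item => c.head?)
      (f := fun (_ : List Item) (q : Item) => q.2.head?) h1
      (NPC.Poly.head? (NPC.Poly.snd (NPC.Poly.snd NPC.Poly.id)))
  have h3 : Poly (fun c : List Item => (c.head?.bind (fun q => q.2.head?)).bind
      (fun w => unbits (List Item × List Item) w)) :=
    NPC.Poly.optBind (o := fun c : List Item => c.head?.bind (fun q => q.2.head?))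
      (f := fun (_ : List Item) (w : List Bool) => unbits (List Item × List Item) w) h2
      (poly_unbits.comp (NPC.Poly.snd NPC.Poly.id))
  exact NPC.Poly.optGetD (g := fun _ => (([], []) : List Item × List Item)) h3
    (NPC.Poly.const _)

theorem sz_join (a b : List Item) : sz (join a b) ≤ 4 * (sz a + sz b) + 12 := by
  have h1 := sz_listBool_le (bits (a, b))
  rw [bits_length, sz_pair] at h1
  unfold join
  simp only [sz_list_cons, sz_list_nil, sz_pair]
  omega

/-- advice for the complements of the instances -/
theorem adv_step {k : ℕ} (h1 : ∀ L, SigmaP (k + 1) L → AdvAt (k + 1) L)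
    {L M : Set (List Bool)} {p : Polynomial ℕ} (hM : AdvAt (k + 1) M)
    (hL : ∀ x, x ∈ L ↔ ∃ w : List Bool, w.length ≤ p.eval x.length ∧ pairBits x w ∉ M) :
    AdvAt (k + 1) L := by
  obtain ⟨D, hD, Pa, hPa⟩ := hM
  -- the language
  have e0 : Poly (fun s : (List Bool × (List Item × List Bool)) × List Bool => s.1.2.2) :=
    NPC.Poly.snd (NPC.Poly.snd (NPC.Poly.fst NPC.Poly.id))
  have e1 : Poly (fun s : (List Bool × (List Item × List Bool)) × List Bool => s.2) :=
    NPC.Poly.snd NPC.Poly.id
  have c1 : CPr (SigmaP (k + 1)) (fun s : (List Bool × (List Item × List Bool)) × List Bool =>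
      D ((s.1.1, s.1.2.1), pairBits s.1.2.2 s.2) = false) := by
    refine fIsFalse (fCompPoly hD (f := fun s : (List Bool × (List Item × List Bool)) ×
      List Bool => ((s.1.1, s.1.2.1), pairBits s.1.2.2 s.2)) ?_)
    exact NPC.Poly.pair (NPC.Poly.pair (NPC.Poly.fst (NPC.Poly.fst NPC.Poly.id))
      (NPC.Poly.fst (NPC.Poly.snd (NPC.Poly.fst NPC.Poly.id)))) (H622R2.poly_pairBits e0 e1)
  have c2 : CPr (SigmaP (k + 1)) (fun s : (List Bool × (List Item × List Bool)) × List Bool =>
      decide (s.2.length ≤ p.eval s.1.2.2.length) = true) :=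
    sPoly (NPC.Poly.decide_le (NPC.Poly.length e1) (((UPoly.length e0).eval p).toPoly))
  have c3 := sExW (sAnd c2 c1) p
  have c4 := sTo_raw (sPart c3
    (f := fun z => unbits (List Bool × (List Item × List Bool)) z) poly_unbits)
  obtain ⟨D', hD', Pa', hPa'⟩ := h1 _ c4
  set N : Polynomial ℕ := 2 * Polynomial.X + 1 + p with hN
  have hNe : ∀ n, N.eval n = 2 * n + 1 + p.eval n := by
    intro n
    rw [hN]
    simp only [Polynomial.eval_add, Polynomial.eval_mul, Polynomial.eval_ofNat,
      Polynomial.eval_one, Polynomial.eval_X]
  set B : Polynomial ℕ := 4 * N + 1 + (Pa.comp N + (4 * Polynomial.X + 1) + 1) + 1 with hB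
  have hBe : ∀ n, B.eval n = 4 * N.eval n + 1 + (Pa.eval (N.eval n) + (4 * n + 1) + 1) + 1 := by
    intro n
    rw [hB]
    simp only [Polynomial.eval_add, Polynomial.eval_mul, Polynomial.eval_ofNat,
      Polynomial.eval_one, Polynomial.eval_X, Polynomial.eval_comp]
  have g0 : Poly (fun z : (List Bool × List Item) × List Bool => z.1.1) :=
    NPC.Poly.fst (NPC.Poly.fst NPC.Poly.id)
  have g1 : Poly (fun z : (List Bool × List Item) × List Bool => split z.1.2) :=
    poly_split.comp (NPC.Poly.snd (NPC.Poly.fst NPC.Poly.id))
  refine ⟨fun z => D' ((un (B.eval z.1.1.length), (split z.1.2).2),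
    bits ((un (N.eval z.1.1.length), ((split z.1.2).1, z.2)) :
      List Bool × (List Item × List Bool))), ?_,
    4 * (Pa.comp N + Pa'.comp B) + 12, fun n => ?_⟩
  · refine fCompPoly hD' (f := fun z : (List Bool × List Item) × List Bool =>
      ((un (B.eval z.1.1.length), (split z.1.2).2),
        bits ((un (N.eval z.1.1.length), ((split z.1.2).1, z.2)) :
          List Bool × (List Item × List Bool)))) ?_
    exact NPC.Poly.pair (NPC.Poly.pair (un_poly ((UPoly.length g0).eval B)) (NPC.Poly.snd g1))
      (bits_poly.comp (NPC.Poly.pair (un_poly ((UPoly.length g0).eval N))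
        (NPC.Poly.pair (NPC.Poly.fst g1) (NPC.Poly.snd NPC.Poly.id))))
  · obtain ⟨a, ha, ha'⟩ := hPa (N.eval n)
    obtain ⟨b, hb, hb'⟩ := hPa' (B.eval n)
    refine ⟨join a b, ?_, fun u hu => ?_⟩
    · refine (sz_join a b).trans ?_
      simp only [Polynomial.eval_add, Polynomial.eval_mul, Polynomial.eval_ofNat,
        Polynomial.eval_comp]
      omega
    · have hlen : (bits ((un (N.eval n), (a, u)) :
          List Bool × (List Item × List Bool))).length ≤ B.eval n := by
        rw [bits_length, sz_pair, sz_pair, hBe]
        have k1 := sz_listBool_le (un (N.eval n))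
        have k2 := sz_listBool_le u
        rw [un_length] at k1
        omega
      simp only [un_length, split_join]
      rw [hb' _ hlen, hL]
      simp only [Set.mem_ofPred_eq, unbits_bits, Option.some.injEq, decide_eq_true_eq]
      constructor
      · rintro ⟨t, rfl, w, _, hw, hd⟩
        refine ⟨w, hw, fun hm => ?_⟩
        have k3 : (pairBits u w).length ≤ N.eval n := by
          rw [length_pairBits', hNe]
          have k4 := hw.trans (eval_mono p hu)
          omega
        have k5 := (ha' _ k3).2 hm
        simp only at hd
        rw [k5] at hd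
        exact Bool.noConfusion hd
      · rintro ⟨w, hw, hm⟩
        refine ⟨_, rfl, w, ?_, hw, ?_⟩
        · refine hw.trans (eval_mono p ?_)
          rw [sz_pair, sz_pair]
          have := length_lt_sz u
          omega
        · have k3 : (pairBits u w).length ≤ N.eval n := by
            rw [length_pairBits', hNe]
            have k4 := hw.trans (eval_mono p hu)
            omega
          simp only
          by_contra hd
          rw [Bool.not_eq_false] at hd
          exact hm ((ha' _ k3).1 hd)

theorem adv_all {k : ℕ} (h1 : ∀ L, SigmaP (k + 1) L → AdvAt (k + 1) L) :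
    ∀ j, ∀ L, SigmaP j L → AdvAt (k + 1) L := by
  intro j
  induction j with
  | zero => exact fun L hL => h1 L (sigma_mono (Nat.zero_le _) hL)
  | succ j ih =>
    rintro L ⟨M, p, hM, hL⟩
    exact adv_step h1 (ih M hM) hL

end Pool.Agent.Y596.PL
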