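import Pool.Agent.Y596.PL.All

/-!
# Predictions on every level of the hierarchy
-/

set_option autoImplicit false

namespace Pool.Agent.Y596.PL

open Pool.Agent.NPC Pool.Agent.H251R5.PQ Pool.Agent.W901.AT Pool.Agent.H579R2.Spt
open Pool.Agent.W901.NU Pool.Agent.W901.PX
open Pool.Agent.W903.GP (InPH SigmaP sigma_props sigma_ex sigma_succ sigma_mono u1 u1_pair poly_u1
  pid inP_iff)

/-- full predictions are predictions -/
theorem predIn_of_fully {k : ℕ} {f : ℕ → ℝ} {ε : ℝ} {A : Set (List Bool)}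
    (h : FullyPredIn (SigmaP k) f A) : PredIn (SigmaP k) f ε A := by
  obtain ⟨g, hg, h⟩ := h
  refine ⟨fun z => g (unpair z).1, 0, fOfCFn (fCompPoly (fToCFn hg)
    (NPC.Poly.fst poly_unpair)), fun qs hqs _ => ⟨[], by simp, ?_⟩⟩
  simp only [unpair_pairBits]
  exact (h qs hqs).1

/-- a collapse of some level is a collapse of the whole hierarchy -/
theorem sigma_le_of_succ {c : ℕ} (h : ∀ L, SigmaP (c + 1) L → SigmaP c L) :
    ∀ j, ∀ L, SigmaP j L → SigmaP c L := by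
  intro j
  induction j with
  | zero => exact fun L hL => sigma_mono (Nat.zero_le _) hL
  | succ j ih =>
    rintro L ⟨M, p, hM, hL⟩
    exact h L ⟨M, p, ih M hM, hL⟩

/-- if the hierarchy collapses, the sets of the hierarchy are fully predictable -/
theorem fully_of_collapse {c : ℕ} (h : ∀ L, InPH L → SigmaP c L) {f : ℕ → ℝ}
    (hf1 : ∀ m : ℕ, 1 ≤ m → f m ≤ Real.sqrt m) {A : Set (List Bool)} (hA : InPH A) :
    FullyPredIn (SigmaP c) f A := by
  obtain ⟨g, hg, h1⟩ := fullyPredIn_of_in cl_ph hf1 hA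
  exact ⟨g, ⟨hg.1, h _ hg.2⟩, h1⟩

/-- **The law.** -/
theorem law {f : ℕ → ℝ} {ε : ℝ} (hε : 0 < ε) (hf1 : ∀ m : ℕ, 1 ≤ m → f m ≤ Real.sqrt m)
    (hf : Filter.Tendsto (fun m : ℕ => f m / Real.sqrt (Real.log m)) Filter.atTop Filter.atTop) :
    List.TFAE
      [∀ k, ∃ L, SigmaP (k + 1) L ∧ ¬ SigmaP k L,
        ∀ k, 1 ≤ k → ∃ L, SigmaP k L ∧ ¬ PredIn (SigmaP k) f ε L,
        ∀ k, 1 ≤ k → ∃ L, SigmaP k L ∧ ¬ FullyPredIn (SigmaP k) f L] := by
  tfae_have 1 → 2 := by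
    intro h k hk
    by_contra hc
    push Not at hc
    obtain ⟨k, rfl⟩ := Nat.exists_eq_add_of_le' hk
    have h1 : ∀ L, SigmaP (k + 1) L → AdvAt (k + 1) L := fun L hL =>
      advAt_of_reduces hf hε (hc L hL) (r := fun x => x) NPC.Poly.id fun x => Iff.rfl
    have h2 := ph_sub (l := k) fun A hA => by
      obtain ⟨j, hj⟩ := hA
      exact adv_all h1 j A hj
    obtain ⟨L, h3, h4⟩ := h (k + 5)
    exact h4 (h2 L ⟨_, h3⟩)
  tfae_have 2 → 3 := fun h k hk => by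
    obtain ⟨L, h1, h2⟩ := h k hk
    exact ⟨L, h1, fun h3 => h2 (predIn_of_fully h3)⟩
  tfae_have 3 → 1 := by
    intro h c
    by_contra hc
    push Not at hc
    have h1 := sigma_le_of_succ hc
    obtain ⟨L, h2, h3⟩ := h (c + 1) (by omega)
    exact h3 (fully_of_collapse (fun M hM => by
      obtain ⟨j, hj⟩ := hM
      exact sigma_succ (h1 j M hj)) hf1 ⟨_, h2⟩)
  tfae_finish

end Pool.Agent.Y596.PL
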